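import Pool.Agent.Y564.PA.Main

/-!
# There is no universal countable projective algebra of plane sets
-/

set_option autoImplicit false

namespace Pool.Agent.Results.MP_3db952_lc.NoUniversal

open Pool.Agent.Y564.PA Cardinal

/-- `U` is a universal countable projective algebra: every countable projective algebra is
isomorphic to a subalgebra of `U`. -/
def Universal (U : Set (Set Plane)) : Prop :=
  IsProjAlg U ∧ U.Countable ∧
    ∀ A : Set (Set Plane), IsProjAlg A → A.Countable → ∃ B ⊆ U, IsProjAlg B ∧ Isomorphic A B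

/-- There is no universal countable projective algebra. Moreover, no projective algebra with fewer
than `2 ^ ℵ₀` members contains isomorphic copies of all projective algebras generated by one plane
set (these are countable). -/
theorem result :
    (¬ ∃ U : Set (Set Plane), Universal U) ∧
    ∀ U : Set (Set Plane), IsProjAlg U → #U < 2 ^ ℵ₀ →
      ∃ S : Set Plane, IsProjAlg (gen {S}) ∧ (gen {S}).Countable ∧
        ∀ B ⊆ U, IsProjAlg B → ¬ Isomorphic (gen {S}) B := by
  have key : ∀ U : Set (Set Plane), IsProjAlg U → #U < 2 ^ ℵ₀ →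
      ∃ S : Set Plane, IsProjAlg (gen {S}) ∧ (gen {S}).Countable ∧
        ∀ B ⊆ U, IsProjAlg B → ¬ Isomorphic (gen {S}) B := by
    intro U _ hc
    rw [Cardinal.two_power_aleph0] at hc
    obtain ⟨S, hS⟩ := no_universal hc
    exact ⟨S, gen_single_isProjAlg S, gen_single_countable S, fun B hB _ => hS B hB⟩
  refine ⟨?_, key⟩
  rintro ⟨U, h1, h2, h3⟩
  have h4 : #U < 2 ^ ℵ₀ := by
    rw [Cardinal.two_power_aleph0]
    have : Countable U := Set.countable_coe_iff.2 h2
    exact Cardinal.mk_le_aleph0.trans_lt Cardinal.aleph0_lt_continuum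
  obtain ⟨S, h5, h6, h7⟩ := key U h1 h4
  obtain ⟨B, h8, h9, h10⟩ := h3 _ h5 h6
  exact h7 B h8 h9 h10

end Pool.Agent.Results.MP_3db952_lc.NoUniversal
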